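import Mathlib
import Pool.Agent.H10.Scale.S5

set_option autoImplicit false

namespace Pool.Agent.Results.MP_8923e7_nt.AllScales

/-- Let `k ≥ 1` and `0 < δ < 1`. There is `c > 0` such that for all large `D`, for at least
`c D ^ k` of the vectors `(a_1, ..., a_k)` of distinct integers in `[1, D]`, at least `c D` of the
integers `t ∈ (D, 2 D]` have the following property: for all real `X` with
`(1 / c) (log D) ^ (k + 1) ≤ X ≤ c D` simultaneously, the number of `n ∈ (t, t + X]` such that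
`n, n + a_1, ..., n + a_k` are all prime lies between `(1 - δ) X / (log D) ^ (k + 1)` and
`(1 / c) X / (log D) ^ (k + 1)`. -/
theorem result : ∀ k : ℕ, 1 ≤ k → ∀ δ : ℝ, 0 < δ → δ < 1 →
    ∃ c : ℝ, 0 < c ∧ ∃ D₀ : ℕ, ∀ D ≥ D₀,
      c * (D : ℝ) ^ k ≤ ({a : Fin k → ℕ | (∀ i, 1 ≤ a i ∧ a i ≤ D) ∧ Function.Injective a ∧
        c * D ≤ ({t : ℕ | D < t ∧ t ≤ 2 * D ∧ ∀ X : ℝ,
          1 / c * (Real.log D) ^ (k + 1) ≤ X → X ≤ c * D →
          (1 - δ) * (X / (Real.log D) ^ (k + 1)) ≤ (((Finset.Ioc t (t + ⌊X⌋₊)).filter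
            (fun n => n.Prime ∧ ∀ i, (n + a i).Prime)).card : ℝ) ∧
          (((Finset.Ioc t (t + ⌊X⌋₊)).filter
            (fun n => n.Prime ∧ ∀ i, (n + a i).Prime)).card : ℝ) ≤
            1 / c * (X / (Real.log D) ^ (k + 1))}.ncard : ℝ)}.ncard : ℝ) := by
  intro k _ δ hδ hδ1
  obtain ⟨c, hc, D₀, h⟩ := Pool.Agent.H10.Scale.main k δ hδ hδ1
  refine ⟨c, hc, D₀, ?_⟩
  intro D hD
  have := h D hD
  convert this

end Pool.Agent.Results.MP_8923e7_nt.AllScales
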