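import Mathlib
import Pool.Agent.H10.Least6

set_option autoImplicit false

namespace Pool.Agent.Results.MP_8923e7_nt.LeastTranslate

/-- For every `ε > 0` and every large `D` there is an admissible set `H` of integers in `[0, D]`,
with `0 ∈ H`, such that every `N` with all `N + h` (`h ∈ H`) prime satisfies
`N ≥ exp (D ^ (1 - ε))`. -/
theorem result : ∀ ε : ℝ, 0 < ε → ∃ D₀ : ℕ, ∀ D ≥ D₀, ∃ H : Finset ℕ, 0 ∈ H ∧ (∀ h ∈ H, h ≤ D) ∧
    (∀ p : ℕ, p.Prime → ∃ c : ℕ, ∀ h ∈ H, ¬ p ∣ c + h) ∧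
    ∀ N : ℕ, (∀ h ∈ H, (N + h).Prime) → Real.exp ((D : ℝ) ^ (1 - ε)) ≤ N :=
  fun ε hε => Pool.Agent.H10.Least.least ε hε

end Pool.Agent.Results.MP_8923e7_nt.LeastTranslate
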