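import Mathlib
import Pool.Agent.H10.Pattern4

set_option autoImplicit false

namespace Pool.Agent.Results.MP_8923e7_nt.PatternCount

open Finset

/-- The exact prime pattern of length `n` at `N`: the set of `j < n` with `N + j` prime. -/
def primePattern (n N : ℕ) : Finset ℕ := (range n).filter (fun j => (N + j).Prime)

/-- Unconditional lower bound for the number of exact prime patterns of length `n` (each with at
least `√n / 3` primes, taken at heights `N ≥ n`, so that each of them is admissible). -/
theorem result : ∃ c : ℝ, 0 < c ∧ ∀ᶠ n : ℕ in Filter.atTop,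
    Real.exp (c * √(n : ℝ) / Real.log n ^ 2)
      ≤ (({W : Finset ℕ | √(n : ℝ) / 3 ≤ W.card ∧ ∃ N : ℕ, n ≤ N ∧ W = primePattern n N}.ncard : ℕ) : ℝ) :=
  Pool.Agent.H10.Pattern.main

end Pool.Agent.Results.MP_8923e7_nt.PatternCount
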